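import Pool.Agent.Helper204.JS.P_main
import Pool.Agent.Helper204.JS.StmtR

set_option autoImplicit false

/-!
# Integrality of the integral form of the Jack superpolynomials

Definitions: `Pool/Agent/Helper204/JS/StmtA.lean` (superpartitions, diagrams, `v_Λ`) and
`Pool/Agent/Helper204/JS/StmtR.lean` (superspace, `m_Λ`, `p_Λ`, scalar product, Jack superpolynomials).
-/

namespace Pool.Agent.Results.MP_cf8419_co.IntegralForm

open JSup JackSuper

/-- **Theorem.** For `m ≥ 1`, all `n` and all numbers `N ≥ n + m` of variables: in the superspace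
`ℚ(α)[x_1,…,x_N] ⊗ Λ(θ_1,…,θ_N)` (`α` is `RatFunc.X`) all coefficients `v_{ΛΩ}(α)` of the integral form
`J_Λ = v_Λ(α) P_Λ` of the Jack superpolynomials of degree `(n|m)` lie in `ℤ[α]`. -/
theorem result (n m N : ℕ) (hm : 1 ≤ m) (hN : n + m ≤ N) :
    JackIntegral (RatFunc.X : RatFunc ℚ)
      (MvPolynomial.X : Fin N → MvPolynomial (Fin N) (RatFunc ℚ)) n m := by
  intro B hB c hc L W
  convert main n m N hm hN B hB c hc.diag hc.tri hc.orth L W <;> exact Subsingleton.elim _ _

end Pool.Agent.Results.MP_cf8419_co.IntegralForm
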